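import Pool.Agent.QPyth.Defs

namespace Pool.Agent.QPyth

theorem one_le_cfVal : ∀ l : List ℕ, l ≠ [] → (∀ x ∈ l, 1 ≤ x) → 1 ≤ cfVal l
  | [], h, _ => absurd rfl h
  | [a], _, h => by
    simp only [cfVal]
    exact_mod_cast h a (by simp)
  | a :: b :: l, _, h => by
    have h1 : 1 ≤ cfVal (b :: l) := one_le_cfVal (b :: l) (by simp) (fun x hx => h x (by simp at hx ⊢; tauto))
    have h2 : (1 : ℚ) ≤ a := by exact_mod_cast h a (by simp)
    simp only [cfVal]
    have : 0 < 1 / cfVal (b :: l) := by positivity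
    linarith

theorem one_lt_cfVal (a b : ℕ) (l : List ℕ) (h : ∀ x ∈ a :: b :: l, 1 ≤ x) :
    1 < cfVal (a :: b :: l) := by
  have h1 : 1 ≤ cfVal (b :: l) := one_le_cfVal (b :: l) (by simp) (fun x hx => h x (by simp at hx ⊢; tauto))
  have h2 : (1 : ℚ) ≤ a := by exact_mod_cast h a (by simp)
  simp only [cfVal]
  have : 0 < 1 / cfVal (b :: l) := by positivity
  linarith

theorem int_helper (a a' : ℕ) (x : ℚ) (h : (a : ℚ) = a' + x) (hx : 0 < x) (hx1 : x < 1) : False := by
  have h1 : (a' : ℚ) < a := by linarith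
  have h2 : (a : ℚ) < a' + 1 := by linarith
  have h3 : a' < a := by exact_mod_cast h1
  have h4 : a < a' + 1 := by exact_mod_cast h2
  omega

theorem cfVal_inj : ∀ l l' : List ℕ, (∀ x ∈ l, 1 ≤ x) → (∀ x ∈ l', 1 ≤ x) → l ≠ [] → l' ≠ [] →
    (Odd l.length ↔ Odd l'.length) → cfVal l = cfVal l' → l = l'
  | [], _, _, _, h, _, _, _ => absurd rfl h
  | _, [], _, _, _, h, _, _ => absurd rfl h
  | [a], [a'], _, _, _, _, _, h => by
    simp only [cfVal] at h
    have : a = a' := by exact_mod_cast h
    rw [this]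
  | [a], [a', b'], _, _, _, _, hp, _ => by
    simp at hp
    exact absurd hp (by decide)
  | [a, b], [a'], _, _, _, _, hp, _ => by
    simp at hp
    exact absurd hp (by decide)
  | [a], a' :: b' :: c' :: l', _, h', _, _, _, h => by
    exfalso
    have h1 : 1 < cfVal (b' :: c' :: l') := one_lt_cfVal b' c' l' (fun x hx => h' x (by simp at hx ⊢; tauto))
    rw [cfVal, cfVal] at h
    exact int_helper a a' _ h (by positivity) (by rw [div_lt_one (by linarith)]; exact h1)
  | a :: b :: c :: l, [a'], h', _, _, _, _, h => by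
    exfalso
    have h1 : 1 < cfVal (b :: c :: l) := one_lt_cfVal b c l (fun x hx => h' x (by simp at hx ⊢; tauto))
    rw [cfVal, cfVal] at h
    exact int_helper a' a _ h.symm (by positivity) (by rw [div_lt_one (by linarith)]; exact h1)
  | a :: b :: l, a' :: b' :: l', h1, h2, _, _, hp, h => by
    have hb : ∀ x ∈ b :: l, 1 ≤ x := fun x hx => h1 x (by simp at hx ⊢; tauto)
    have hb' : ∀ x ∈ b' :: l', 1 ≤ x := fun x hx => h2 x (by simp at hx ⊢; tauto)
    have hv : 1 ≤ cfVal (b :: l) := one_le_cfVal _ (by simp) hb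
    have hv' : 1 ≤ cfVal (b' :: l') := one_le_cfVal _ (by simp) hb'
    have hpar : Odd (b :: l).length ↔ Odd (b' :: l').length := by
      simp only [List.length_cons] at hp ⊢
      rw [Nat.odd_add_one, Nat.odd_add_one (n := l'.length + 1)] at hp
      exact not_iff_not.mp hp
    rw [cfVal, cfVal] at h
    have hi : 0 < 1 / cfVal (b :: l) := by positivity
    have hi' : 0 < 1 / cfVal (b' :: l') := by positivity
    have hle : 1 / cfVal (b :: l) ≤ 1 := by rw [div_le_one (by linarith)]; exact hv
    have hle' : 1 / cfVal (b' :: l') ≤ 1 := by rw [div_le_one (by linarith)]; exact hv'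
    have haa : a = a' := by
      rcases lt_trichotomy a a' with hlt | heq | hgt
      · exfalso
        have h3 : (a : ℚ) + 1 ≤ a' := by exact_mod_cast hlt
        linarith
      · exact heq
      · exfalso
        have h3 : (a' : ℚ) + 1 ≤ a := by exact_mod_cast hgt
        linarith
    subst haa
    have hinv : 1 / cfVal (b :: l) = 1 / cfVal (b' :: l') := by linarith
    have heq : cfVal (b :: l) = cfVal (b' :: l') := by
      have h3 : cfVal (b :: l) ≠ 0 := by linarith
      have h4 : cfVal (b' :: l') ≠ 0 := by linarith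
      field_simp at hinv
      exact hinv.symm
    have := cfVal_inj (b :: l) (b' :: l') hb hb' (by simp) (by simp) hpar heq
    rw [this]
  termination_by l => l.length

theorem cfVal_cons (a : ℕ) (l : List ℕ) (h : l ≠ []) : cfVal (a :: l) = a + 1 / cfVal l := by
  cases l with
  | nil => exact absurd rfl h
  | cons b l => rfl

theorem exists_cf (n : ℕ) : ∀ m : ℕ, 1 ≤ n → n < m → m.Coprime n →
    (∃ a : List ℕ, a ≠ [] ∧ (∀ x ∈ a, 1 ≤ x) ∧ Odd a.length ∧ cfVal a = (m : ℚ) / n) ∧
    (∃ a : List ℕ, a ≠ [] ∧ (∀ x ∈ a, 1 ≤ x) ∧ ¬ Odd a.length ∧ cfVal a = (m : ℚ) / n) := by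
  induction n using Nat.strong_induction_on with
  | _ n ih =>
    intro m hn hmn hc
    rcases Nat.eq_or_lt_of_le hn with h1 | h1
    · subst h1
      constructor
      · exact ⟨[m], by simp, by simp; omega, by simp, by simp [cfVal]⟩
      · refine ⟨[m - 1, 1], by simp, by simp; omega, by simp, ?_⟩
        simp only [cfVal]
        rw [Nat.cast_sub (by omega)]
        norm_num
    · have hr : 0 < m % n := by
        rcases Nat.eq_zero_or_pos (m % n) with h | h
        · exfalso
          have hd : n ∣ m := Nat.dvd_of_mod_eq_zero h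
          have := Nat.Coprime.eq_one_of_dvd hc.symm hd
          omega
        · exact h
      have hrn : m % n < n := Nat.mod_lt _ (by omega)
      have hc' : n.Coprime (m % n) := by
        have : Nat.gcd (m % n) n = Nat.gcd m n := by
          rw [← Nat.gcd_rec, Nat.gcd_comm]
        rw [Nat.coprime_comm]
        unfold Nat.Coprime
        rw [this]; exact hc
      have hq : 1 ≤ m / n := Nat.div_pos hmn.le (by omega)
      obtain ⟨⟨a, ha0, ha1, ha2, ha3⟩, ⟨b, hb0, hb1, hb2, hb3⟩⟩ := ih (m % n) hrn n hr hrn hc'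
      have hval : ((m / n : ℕ) : ℚ) + 1 / ((n : ℚ) / ((m % n : ℕ) : ℚ)) = (m : ℚ) / n := by
        have h5 : (m : ℚ) = n * ((m / n : ℕ) : ℚ) + ((m % n : ℕ) : ℚ) := by
          exact_mod_cast (Nat.div_add_mod m n).symm
        have h6 : (n : ℚ) ≠ 0 := by positivity
        have h7 : ((m % n : ℕ) : ℚ) ≠ 0 := by positivity
        rw [one_div_div, eq_div_iff h6, add_mul, div_mul_cancel₀ _ h6]
        linarith
      constructor
      · refine ⟨(m / n) :: b, by simp, ?_, ?_, ?_⟩
        · intro x hx
          rcases List.mem_cons.mp hx with h | h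
          · omega
          · exact hb1 x h
        · rw [List.length_cons, Nat.odd_add_one]; exact hb2
        · rw [cfVal_cons _ _ hb0, hb3]; exact hval
      · refine ⟨(m / n) :: a, by simp, ?_, ?_, ?_⟩
        · intro x hx
          rcases List.mem_cons.mp hx with h | h
          · omega
          · exact ha1 x h
        · rw [List.length_cons, Nat.odd_add_one]; simpa using ha2
        · rw [cfVal_cons _ _ ha0, ha3]; exact hval

theorem existsUnique_oddCF (m n : ℕ) (hn : 1 ≤ n) (hmn : n < m) (hc : m.Coprime n) :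
    ∃! a : List ℕ, IsOddCF m n a := by
  obtain ⟨⟨a, ha0, ha1, ha2, ha3⟩, -⟩ := exists_cf n m hn hmn hc
  refine ⟨a, ⟨ha1, ha2, ha3⟩, ?_⟩
  rintro b ⟨hb1, hb2, hb3⟩
  have hb0 : b ≠ [] := by
    rintro rfl
    simp at hb2
  exact cfVal_inj b a hb1 ha1 hb0 ha0 (by simp [ha2, hb2]) (by rw [ha3, hb3])

end Pool.Agent.QPyth
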