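import Mathlib

open Polynomial

namespace Pool.Agent.QPyth

/-- The matrices `R_q = [[q,1],[0,1]]` (for `true`) and `L_q = [[q,0],[q,1]]` (for `false`). -/
noncomputable def gen : Bool → Matrix (Fin 2) (Fin 2) ℤ[X]
  | true => !![X, 1; 0, 1]
  | false => !![X, 0; X, 1]

/-- The alternating product of powers `R_q^{a_1} L_q^{a_2} R_q^{a_3} ⋯` (first factor a power of `R_q`
for `true`, of `L_q` for `false`). -/
noncomputable def altProd : Bool → List ℕ → Matrix (Fin 2) (Fin 2) ℤ[X]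
  | _, [] => 1
  | b, a :: l => gen b ^ a * altProd (!b) l

/-- The value of the continued fraction `[a_1, ..., a_k]`. -/
def cfVal : List ℕ → ℚ
  | [] => 0
  | [a] => a
  | a :: b :: l => a + 1 / cfVal (b :: l)

/-- `a` is the continued fraction expansion of `m/n` with positive entries and odd length. -/
def IsOddCF (m n : ℕ) (a : List ℕ) : Prop :=
  (∀ x ∈ a, 1 ≤ x) ∧ Odd a.length ∧ cfVal a = (m : ℚ) / n

/-- `𝒩_{m/n}` for `m/n = [a_1, ..., a_k]`. -/
noncomputable def num (a : List ℕ) : ℤ[X] := (altProd true a).mulVec ![0, 1] 0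

/-- `𝒟_{m/n}` for `m/n = [a_1, ..., a_k]`. -/
noncomputable def den (a : List ℕ) : ℤ[X] := (altProd true a).mulVec ![0, 1] 1

/-- `d = max (deg 𝒩_{m/n}) (deg 𝒟_{m/n})`. -/
noncomputable def dd (a : List ℕ) : ℕ := max (num a).natDegree (den a).natDegree

/-- `𝒩_{n/m} = q^d 𝒟_{m/n}(1/q)`. -/
noncomputable def numInv (a : List ℕ) : ℤ[X] := (den a).reflect (dd a)

/-- `𝒟_{n/m} = q^d 𝒩_{m/n}(1/q)`. -/
noncomputable def denInv (a : List ℕ) : ℤ[X] := (num a).reflect (dd a)

/-- `𝒜_{m/n}`. -/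
noncomputable def polyA (a : List ℕ) : ℤ[X] := X * num a * numInv a + den a * denInv a

/-- `ℬ_{m/n}`. -/
noncomputable def polyB (a : List ℕ) : ℤ[X] := num a * denInv a - den a * numInv a

/-- `𝒞_{m/n}`. -/
noncomputable def polyC (a : List ℕ) : ℤ[X] := X * num a ^ 2 + den a ^ 2

/-- The coefficient sequence `c_0, ..., c_N` of a polynomial of degree `N` is unimodal. -/
def Unimodal (p : ℤ[X]) : Prop :=
  ∃ j ≤ p.natDegree, (∀ i < j, p.coeff i ≤ p.coeff (i + 1)) ∧
    ∀ i, j ≤ i → i < p.natDegree → p.coeff (i + 1) ≤ p.coeff i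

end Pool.Agent.QPyth
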