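import Pool.Agent.Fox.Unimodal
import Pool.Agent.QPyth.CF

open Polynomial

namespace Pool.Agent.QPyth

open Pool.Agent.Fox

/-- the word of a list of exponents -/
def wd : Bool → List ℕ → List Bool
  | _, [] => []
  | b, a :: l => List.replicate a b ++ wd (!b) l

/-- matrix indices as Booleans -/
def ix : Fin 2 → Bool
  | 0 => false
  | 1 => true

theorem gen_mul (b : Bool) (w : List Bool) (A : Matrix (Fin 2) (Fin 2) ℤ[X])
    (h : ∀ i j, toLaurent (A i j) = M w (ix i) (ix j)) (i j : Fin 2) :
    toLaurent ((gen b * A) i j) = M (b :: w) (ix i) (ix j) := by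
  rw [Matrix.mul_apply, Fin.sum_univ_two]
  cases b <;> fin_cases i <;> simp [gen, h, ix, M, Polynomial.toLaurent_X, t]

theorem gen_pow_mul (b : Bool) (a : ℕ) (w : List Bool) (A : Matrix (Fin 2) (Fin 2) ℤ[X])
    (h : ∀ i j, toLaurent (A i j) = M w (ix i) (ix j)) :
    ∀ i j, toLaurent ((gen b ^ a * A) i j) = M (List.replicate a b ++ w) (ix i) (ix j) := by
  induction a with
  | zero => simpa using h
  | succ a ih =>
    intro i j
    rw [pow_succ', Matrix.mul_assoc, List.replicate_succ, List.cons_append]
    exact gen_mul b _ _ ih i j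

theorem altProd_toLaurent (l : List ℕ) : ∀ (b : Bool) (i j : Fin 2),
    toLaurent (altProd b l i j) = M (wd b l) (ix i) (ix j) := by
  induction l with
  | nil =>
    intro b i j
    fin_cases i <;> fin_cases j <;> simp [altProd, wd, M, ix]
  | cons a l ih =>
    intro b
    exact gen_pow_mul b a _ _ (ih (!b))

theorem num_toLaurent (a : List ℕ) : toLaurent (num a) = M (wd true a) false true := by
  have : num a = altProd true a 0 1 := by
    unfold num Matrix.mulVec dotProduct
    simp [Fin.sum_univ_two]
  rw [this, altProd_toLaurent]; rfl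

theorem den_toLaurent (a : List ℕ) : toLaurent (den a) = M (wd true a) true true := by
  have : den a = altProd true a 1 1 := by
    unfold den Matrix.mulVec dotProduct
    simp [Fin.sum_univ_two]
  rw [this, altProd_toLaurent]; rfl

theorem coeff_toLaurent (f : ℤ[X]) (i : ℤ) :
    (toLaurent f).coeff i = if 0 ≤ i then f.coeff i.toNat else 0 := by
  induction f using Polynomial.induction_on' with
  | add p q hp hq =>
    rw [map_add]
    simp only [AddMonoidAlgebra.coeff_add, Finsupp.add_apply, hp, hq, Polynomial.coeff_add]
    split_ifs <;> simp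
  | monomial n a =>
    rw [← Polynomial.C_mul_X_pow_eq_monomial, Polynomial.toLaurent_C_mul_X_pow]
    have h1 : (LaurentPolynomial.C a * LaurentPolynomial.T (n : ℤ) : LP)
        = a • (LaurentPolynomial.T (n : ℤ) : LP) := by
      rw [← LaurentPolynomial.smul_eq_C_mul]
    rw [h1, AddMonoidAlgebra.coeff_smul]
    have h2 : (a • (LaurentPolynomial.T (n : ℤ) : LP).coeff) i
        = a * (LaurentPolynomial.T (n : ℤ) : LP).coeff i := rfl
    rw [h2, coeff_T', Polynomial.coeff_C_mul, Polynomial.coeff_X_pow]
    by_cases hi : 0 ≤ i
    · rw [if_pos hi]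
      congr 1
      by_cases hn : i = n
      · subst hn; simp
      · rw [if_neg hn, if_neg (by omega)]
    · rw [if_neg hi, if_neg (by omega), mul_zero]

theorem coeff_toLaurent_nat (f : ℤ[X]) (i : ℕ) : (toLaurent f).coeff (i : ℤ) = f.coeff i := by
  rw [coeff_toLaurent]; simp

theorem toLaurent_reflect (f : ℤ[X]) (d : ℕ) (h : f.natDegree ≤ d) :
    toLaurent (f.reflect d) = refl (d : ℤ) (toLaurent f) := by
  apply LaurentPolynomial.ext
  intro i
  rw [coeff_refl, coeff_toLaurent, coeff_toLaurent]
  by_cases hi : 0 ≤ i
  · rw [if_pos hi, Polynomial.coeff_reflect]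
    by_cases hd : i ≤ d
    · rw [if_pos (by omega), Polynomial.revAt_le (by omega)]
      congr 1
      omega
    · rw [if_neg (by omega), Polynomial.revAt_eq_self_of_lt (by omega)]
      apply Polynomial.coeff_eq_zero_of_natDegree_lt
      omega
  · rw [if_neg hi]
    split_ifs with h1
    · symm
      apply Polynomial.coeff_eq_zero_of_natDegree_lt
      omega
    · rfl

theorem M_neg (w : List Bool) (i j : Bool) (k : ℤ) (hk : k < 0) : (M w i j).coeff k = 0 := by
  induction w generalizing i k with
  | nil =>
    simp only [M]
    split_ifs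
    · rw [coeff_one', if_neg (by omega)]
    · simp
  | cons x w ih =>
    cases x <;> cases i <;>
      simp only [M, AddMonoidAlgebra.coeff_add, Finsupp.add_apply, coeff_T_mul, ih _ k hk,
        ih _ (k - 1) (by omega), add_zero]

theorem M_large (w : List Bool) (i j : Bool) (k : ℤ) (hk : (w.length : ℤ) < k) :
    (M w i j).coeff k = 0 := by
  have h := M_bar (bar w) i j
  rw [bar_bar, bar_length] at h
  rw [h, coeff_refl]
  exact M_neg _ _ _ _ (by omega)

theorem M_true_coeff_zero (w : List Bool) :
    (M w true false).coeff 0 = 0 ∧ (M w true true).coeff 0 = 1 := by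
  induction w with
  | nil =>
    simp only [M]
    simp
  | cons x w ih =>
    obtain ⟨h1, h2⟩ := ih
    cases x
    · simp only [M, AddMonoidAlgebra.coeff_add, Finsupp.add_apply, coeff_T_mul, h1, h2]
      rw [M_neg _ _ _ _ (by norm_num), M_neg _ _ _ _ (by norm_num)]
      simp
    · exact ⟨h1, h2⟩

theorem P_coeff_zero (w : List Bool) : (P w).coeff 0 = 1 := by
  obtain ⟨h1, h2⟩ := M_true_coeff_zero w
  unfold P
  simp only [AddMonoidAlgebra.coeff_add, Finsupp.add_apply, coeff_T_mul, h1, h2]
  rw [M_neg _ _ _ _ (by norm_num), M_neg _ _ _ _ (by norm_num)]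
  simp

theorem P_coeff_top (w : List Bool) : (P w).coeff ((w.length : ℤ) + 1) = 1 := by
  have h := P_bar (bar w)
  rw [bar_bar, bar_length] at h
  rw [h, coeff_refl, sub_self]
  exact P_coeff_zero _

theorem M01_AxA (w : List Bool) : M (true :: (w ++ [true])) false true = P w := by
  simp only [M]
  rw [M_snocA_true, M_snocA_true]
  unfold P; ring

theorem refl_t_mul (m : ℤ) (f : LP) : refl (m + 1) (t * f) = refl m f := by
  rw [add_comm, refl_mul, refl_T]; simp

theorem refl_succ (m : ℤ) (f : LP) : refl (m + 1) f = t * refl m f := by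
  unfold Pool.Agent.Fox.refl; rw [add_comm, LaurentPolynomial.T_add]; ring

theorem M_reverse (w : List Bool) :
    M (bar w.reverse) false false = M w false false ∧
    t * M (bar w.reverse) false true = M w true false ∧
    M (bar w.reverse) true false = t * M w false true ∧
    M (bar w.reverse) true true = M w true true := by
  induction w with
  | nil => simp [M]
  | cons x w ih =>
    obtain ⟨h1, h2, h3, h4⟩ := ih
    cases x
    · have e : bar (false :: w).reverse = bar w.reverse ++ [true] := by
        rw [List.reverse_cons, bar_append]; rfl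
      rw [e, M_snocA_false, M_snocA_false, M_snocA_true, M_snocA_true]
      simp only [M]
      refine ⟨?_, ?_, ?_, ?_⟩
      · rw [h1]
      · linear_combination t * h1 + h2
      · linear_combination t * h3
      · linear_combination h3 + h4
    · have e : bar (true :: w).reverse = bar w.reverse ++ [false] := by
        rw [List.reverse_cons, bar_append]; rfl
      rw [e, M_snocB_false, M_snocB_false, M_snocB_true, M_snocB_true]
      simp only [M]
      refine ⟨?_, ?_, ?_, ?_⟩
      · linear_combination t * h1 + h2
      · exact h2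
      · linear_combination t * h3 + t * h4
      · exact h4

theorem M_reverse_ff (w : List Bool) :
    M w.reverse false false = refl (w.length : ℤ) (M w true true) := by
  have h := M_bar (bar w.reverse) false false
  rw [bar_bar, bar_length, List.length_reverse] at h
  rw [h, Bool.not_false, (M_reverse w).2.2.2]

theorem M_reverse_ft (w : List Bool) :
    M w.reverse false true = refl (w.length : ℤ) (t * M w false true) := by
  have h := M_bar (bar w.reverse) false true
  rw [bar_bar, bar_length, List.length_reverse] at h
  rw [h, Bool.not_false, Bool.not_true, (M_reverse w).2.2.1]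

/-- A polynomial equal to a fence polynomial is unimodal. -/
theorem unimodal_of_P (p : ℤ[X]) (x : List Bool) (h : toLaurent p = P x) : Unimodal p := by
  have hc : ∀ i : ℕ, p.coeff i = (P x).coeff (i : ℤ) := by
    intro i; rw [← h, coeff_toLaurent_nat]
  have hI : Inc (x.length : ℤ) (P x) := WP_all x.length x rfl
  have hD : Dec ((x.length : ℤ) + 2) (P x) := (WP_all x.length).dec rfl
  -- a peak
  have key : ∃ j : ℕ, (∀ i < j, p.coeff i ≤ p.coeff (i + 1)) ∧
      ∀ i, j ≤ i → p.coeff (i + 1) ≤ p.coeff i := by
    have up : ∀ i : ℕ, 2 * i + 1 ≤ x.length → p.coeff i ≤ p.coeff (i + 1) := by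
      intro i hi
      rw [hc, hc]
      apply hI
      · push_cast; omega
      · push_cast; omega
    have down : ∀ i : ℕ, x.length + 2 ≤ 2 * i + 1 → p.coeff (i + 1) ≤ p.coeff i := by
      intro i hi
      rw [hc, hc]
      apply hD
      · push_cast; omega
      · push_cast; omega
    rcases le_total (p.coeff (x.length / 2 + 1)) (p.coeff (x.length / 2)) with hm | hm
    · refine ⟨x.length / 2, fun i hi => up i (by omega), fun i hi => ?_⟩
      rcases Nat.eq_or_lt_of_le hi with h1 | h1
      · rw [← h1]; exact hm
      · exact down i (by omega)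
    · refine ⟨x.length / 2 + 1, fun i hi => ?_, fun i hi => down i (by omega)⟩
      rcases Nat.eq_or_lt_of_le (Nat.lt_succ_iff.mp hi) with h1 | h1
      · rw [h1]; exact hm
      · exact up i (by omega)
  obtain ⟨j, h1, h2⟩ := key
  refine ⟨min j p.natDegree, Nat.min_le_right _ _, fun i hi => h1 i (by omega), fun i hi hi2 => ?_⟩
  apply h2
  omega

theorem wd_snoc : ∀ (l : List ℕ) (b : Bool), Odd l.length → (∀ x ∈ l, 1 ≤ x) →
    ∃ v, wd b l = v ++ [b]
  | [], _, h, _ => by simp at h
  | [a], b, _, h => by
    obtain ⟨c, hc⟩ : ∃ c, a = c + 1 := ⟨a - 1, by have := h a (by simp); omega⟩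
    refine ⟨List.replicate c b, ?_⟩
    simp only [wd, List.append_nil]
    rw [hc, List.replicate_succ']
  | a :: a' :: l, b, ho, h => by
    have ho' : Odd l.length := by
      simp only [List.length_cons] at ho
      rw [Nat.odd_add_one, Nat.odd_add_one] at ho
      simpa using ho
    obtain ⟨v, hv⟩ := wd_snoc l b ho' (fun x hx => h x (by simp; tauto))
    refine ⟨List.replicate a b ++ (List.replicate a' (!b) ++ v), ?_⟩
    simp only [wd, Bool.not_not]
    rw [hv]
    simp

/-- the word of an odd continued fraction expansion of a number `> 1` -/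
theorem wd_shape (m n : ℕ) (hn : 1 ≤ n) (hmn : n < m) (a : List ℕ) (ha : IsOddCF m n a) :
    ∃ u, wd true a = true :: (u ++ [true]) := by
  obtain ⟨h1, h2, h3⟩ := ha
  obtain ⟨v, hv⟩ := wd_snoc a true h2 h1
  have hval : (1 : ℚ) < cfVal a := by
    rw [h3, lt_div_iff₀ (by exact_mod_cast hn), one_mul]
    exact_mod_cast hmn
  cases v with
  | cons x v =>
    refine ⟨v, ?_⟩
    cases a with
    | nil => simp at h2
    | cons c l =>
      obtain ⟨c', hc⟩ : ∃ c', c = c' + 1 := ⟨c - 1, by have := h1 c (by simp); omega⟩
      have h4 := hv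
      rw [wd, hc, List.replicate_succ, List.cons_append, List.cons_append] at h4
      have h5 := (List.cons.inj h4).1
      rw [hv, List.cons_append, ← h5]
  | nil =>
    exfalso
    have hlen : (wd true a).length = 1 := by rw [hv]; rfl
    match a, h1, h2, hval, hlen with
    | [c], _, _, hval, hlen =>
      simp only [wd, List.append_nil, List.length_replicate] at hlen
      subst hlen
      simp [cfVal] at hval
    | c :: c' :: l, h1, _, _, hlen =>
      simp only [wd, List.length_append, List.length_replicate] at hlen
      have e1 := h1 c (by simp)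
      have e2 := h1 c' (by simp)
      omega

theorem main (m n : ℕ) (hn : 1 ≤ n) (hmn : n < m) (a : List ℕ) (ha : IsOddCF m n a) :
    Unimodal (polyA a) ∧ Unimodal (polyB a) ∧ Unimodal (polyC a) := by
  obtain ⟨u, hu⟩ := wd_shape m n hn hmn a ha
  have hN : toLaurent (num a) = P u := by rw [num_toLaurent, hu, M01_AxA]
  have hD : toLaurent (den a) = M (u ++ [true]) true true := by rw [den_toLaurent, hu]; rfl
  have hdn : (num a).natDegree = u.length + 1 := by
    apply le_antisymm
    · rw [Polynomial.natDegree_le_iff_coeff_eq_zero]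
      intro k hk
      rw [← coeff_toLaurent_nat, num_toLaurent, hu, M01_AxA]
      have h := P_bar (bar u)
      rw [bar_bar, bar_length] at h
      rw [h, coeff_refl]
      unfold P
      simp only [AddMonoidAlgebra.coeff_add, Finsupp.add_apply, coeff_T_mul]
      rw [M_neg _ _ _ _ (by omega), M_neg _ _ _ _ (by omega), M_neg _ _ _ _ (by omega),
        M_neg _ _ _ _ (by omega)]
      simp
    · apply Polynomial.le_natDegree_of_ne_zero
      rw [← coeff_toLaurent_nat, hN]
      push_cast
      rw [P_coeff_top]
      norm_num
  have hdd : (den a).natDegree ≤ u.length + 1 := by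
    rw [Polynomial.natDegree_le_iff_coeff_eq_zero]
    intro k hk
    rw [← coeff_toLaurent_nat, hD]
    apply M_large
    simp
    omega
  have hd : dd a = u.length + 1 := by
    unfold dd
    rw [hdn]
    exact max_eq_left hdd
  have hNi : toLaurent (numInv a) = refl ((u.length : ℤ) + 1) (toLaurent (den a)) := by
    unfold numInv
    rw [toLaurent_reflect _ _ (by rw [hd]; exact hdd), hd]
    push_cast; rfl
  have hDi : toLaurent (denInv a) = refl ((u.length : ℤ) + 1) (toLaurent (num a)) := by
    unfold denInv
    rw [toLaurent_reflect _ _ (by rw [hd]; exact hdn.le), hd]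
    push_cast; rfl
  set w := true :: (u ++ [true]) with hw
  have hwl : (w.length : ℤ) = ((u.length : ℤ) + 1) + 1 := by simp [hw]
  have hN' : toLaurent (num a) = M w false true := by rw [num_toLaurent, hu]
  have hD' : toLaurent (den a) = M w true true := by rw [den_toLaurent, hu]
  refine ⟨?_, ?_, ?_⟩
  · apply unimodal_of_P _ (u.reverse ++ [true, true] ++ u)
    have e : true :: ((u.reverse ++ [true, true] ++ u) ++ [true]) = w.reverse ++ w := by
      simp [hw]
    rw [← M01_AxA, e, M_append, M_reverse_ff, M_reverse_ft, hwl, refl_t_mul, refl_succ]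
    unfold polyA
    rw [map_add, map_mul, map_mul, map_mul, hNi, hDi, hN', hD', Polynomial.toLaurent_X]
    ring
  · apply unimodal_of_P _ (u.reverse ++ [false] ++ u)
    have e : true :: ((u.reverse ++ [false] ++ u) ++ [true])
        = (u ++ [true]).reverse ++ false :: (u ++ [true]) := by
      simp
    rw [← M01_AxA, e, M_append, M_reverse_ff, M_reverse_ft]
    have hl : ((u ++ [true]).length : ℤ) = (u.length : ℤ) + 1 := by simp
    rw [hl]
    have e1 : M w false true = t * M (u ++ [true]) false true + M (u ++ [true]) true true := rfl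
    have e2 : M w true true = M (u ++ [true]) true true := rfl
    have e3 : M (false :: (u ++ [true])) false true = t * M (u ++ [true]) false true := rfl
    have e4 : M (false :: (u ++ [true])) true true
        = t * M (u ++ [true]) false true + M (u ++ [true]) true true := rfl
    unfold polyB
    rw [map_sub, map_mul, map_mul, hNi, hDi, hN', hD', e1, e2, e3, e4, refl_add]
    ring
  · apply unimodal_of_P _ (bar u.reverse ++ [false, true] ++ u)
    have e : false :: ((bar u.reverse ++ [false, true] ++ u) ++ [true])
        = bar w.reverse ++ w := by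
      simp [hw, bar_append]
    have e5 := M11_BA (bar u.reverse ++ [false, true] ++ u)
    rw [e] at e5
    rw [← e5, M_append, (M_reverse w).2.2.1, (M_reverse w).2.2.2]
    unfold polyC
    rw [map_add, map_mul, map_pow, map_pow, hN', hD', Polynomial.toLaurent_X]
    ring

end Pool.Agent.QPyth
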